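import Pool.Agent.helper44.NLT.Spec
import Pool.Agent.helper24.BR.MBB

set_option autoImplicit false

open Complex Metric Set Filter Topology MeasureTheory MPS
open Pool.Agent.helper98.ILF Pool.Agent.helper16.Multibrot

noncomputable section

namespace NLT

theorem CNV_zero {n : ℕ} {c : ℂ} (hn : 2 ≤ n) (hc : c ∈ multibrot n) : (0 : ℂ) ∈ filled n c := by
  intro k
  have h := ((BR.MBB n c hn).1 hc).2 k
  have h2 : ‖(fun z : ℂ => z ^ n + c)^[k] 0‖ ≤ 2 := h
  have := norm_nonneg c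
  linarith

theorem CNV_step {n : ℕ} {c c' : ℂ} {Ψ : ℂ → ℂ} (h : Cj n c c' Ψ) (z : ℂ) (hz : z ∉ filled n c)
    (h0 : Ψ z = 0 ∨ deriv Ψ z = 0) : z ^ n + c ∉ filled n c ∧ deriv Ψ (z ^ n + c) = 0 := by
  have hn := h.hn
  have hfz : z ^ n + c ∉ filled n c := by
    intro hc
    apply hz
    have h1 : z ∈ (fun z : ℂ => z ^ n + c) ⁻¹' filled n c := hc
    rwa [preimage_filled hn c] at h1
  refine ⟨hfz, ?_⟩
  have hz0 : z ≠ 0 := by
    rintro rfl
    exact hz (CNV_zero hn h.hc)
  have hop : IsOpen (filled n c)ᶜ := (isClosed_filled n c).isOpen_compl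
  have h1 : HasDerivAt (fun w : ℂ => w ^ n + c) (n * z ^ (n - 1)) z := by
    simpa using (hasDerivAt_pow n z).add_const c
  have h2 : HasDerivAt Ψ (deriv Ψ (z ^ n + c)) (z ^ n + c) :=
    (h.dif.differentiableAt (hop.mem_nhds hfz)).hasDerivAt
  have h3 : HasDerivAt (fun w : ℂ => Ψ (w ^ n + c)) (deriv Ψ (z ^ n + c) * (n * z ^ (n - 1))) z :=
    HasDerivAt.comp z h2 h1
  have h4 : HasDerivAt Ψ (deriv Ψ z) z := (h.dif.differentiableAt (hop.mem_nhds hz)).hasDerivAt
  have h5 : HasDerivAt (fun w : ℂ => Ψ w ^ n + c') (n * Ψ z ^ (n - 1) * deriv Ψ z) z := by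
    simpa using (h4.fun_pow n).add_const c'
  have h6 : (fun w : ℂ => Ψ (w ^ n + c)) =ᶠ[𝓝 z] fun w : ℂ => Ψ w ^ n + c' := by
    filter_upwards [hop.mem_nhds hz] with w hw using h.feq w hw
  have h7 : deriv Ψ (z ^ n + c) * (n * z ^ (n - 1)) = n * Ψ z ^ (n - 1) * deriv Ψ z :=
    (h3.congr_of_eventuallyEq h6.symm).unique h5
  have h8 : (n : ℂ) * Ψ z ^ (n - 1) * deriv Ψ z = 0 := by
    rcases h0 with h0 | h0
    · rw [h0, zero_pow (by omega)]; ring
    · rw [h0, mul_zero]
  rw [h8] at h7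
  rcases mul_eq_zero.1 h7 with h9 | h9
  · exact h9
  · exfalso
    rcases mul_eq_zero.1 h9 with h10 | h10
    · have : n = 0 := by exact_mod_cast h10
      omega
    · exact hz0 (pow_eq_zero_iff (by omega) |>.1 h10)

theorem CNV : CNV_stmt := by
  intro n c c' Ψ h z hz
  by_contra hcon
  have hcon2 : Ψ z = 0 ∨ deriv Ψ z = 0 := by
    by_contra h1
    push Not at h1
    exact hcon h1
  have hn := h.hn
  have hit : ∀ k : ℕ, (fun w : ℂ => w ^ n + c)^[k + 1] z ∉ filled n c ∧
      deriv Ψ ((fun w : ℂ => w ^ n + c)^[k + 1] z) = 0 := by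
    intro k
    induction k with
    | zero => simpa using CNV_step h z hz hcon2
    | succ k ih =>
      rw [Function.iterate_succ_apply']
      exact CNV_step h _ ih.1 (Or.inr ih.2)
  obtain ⟨B, R, hB⟩ := h.nrm
  set r : ℝ := 4 * |B| + 2 with hr
  have hB0 := abs_nonneg B
  have hc0 := norm_nonneg c
  obtain ⟨k₀, hk₀⟩ := exists_of_notMem_filled hn hz (|R| + r + 2 + ‖c‖)
  have hw := hk₀ (k₀ + 1) (by omega)
  obtain ⟨-, h0⟩ := hit k₀
  set w := (fun w : ℂ => w ^ n + c)^[k₀ + 1] z with hwdef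
  have hball : ∀ y ∈ closedBall w r, |R| + 2 + ‖c‖ < ‖y‖ := by
    intro y hy
    have h1 : ‖y - w‖ ≤ r := by simpa [dist_eq_norm] using hy
    have h2 : ‖w‖ ≤ ‖y‖ + ‖y - w‖ := by
      have := norm_sub_le y (y - w)
      rwa [sub_sub_cancel] at this
    linarith
  have hnot : ∀ y ∈ closedBall w r, y ∉ filled n c := by
    intro y hy hyK
    have h1 := hball y hy
    have h2 : ‖y‖ ≤ 2 + ‖c‖ := by simpa using filled_subset n c hyK
    have := abs_nonneg R
    linarith
  have hr0 : 0 < r := by positivity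
  have hd : DifferentiableOn ℂ (fun y => Ψ y - y) (closedBall w r) :=
    (h.dif.mono (fun y hy => hnot y hy)).sub differentiableOn_id
  have hcau := Complex.norm_deriv_le_of_forall_mem_sphere_norm_le (f := fun y => Ψ y - y) (c := w)
    (R := r) (C := |B|) hr0 (hd.diffContOnCl_ball Subset.rfl) (by
      intro y hy
      have h1 := hball y (sphere_subset_closedBall hy)
      have h2 := hB y (by have := le_abs_self R; linarith)
      exact h2.trans (le_abs_self B))
  have hder : deriv (fun y => Ψ y - y) w = deriv Ψ w - 1 := by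
    have hop : IsOpen (filled n c)ᶜ := (isClosed_filled n c).isOpen_compl
    have h1 : HasDerivAt Ψ (deriv Ψ w) w :=
      (h.dif.differentiableAt (hop.mem_nhds (hnot w (mem_closedBall_self hr0.le)))).hasDerivAt
    exact (h1.sub (hasDerivAt_id w)).deriv
  rw [hder, h0, zero_sub, norm_neg, norm_one, le_div_iff₀ hr0] at hcau
  linarith

end NLT
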